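import Mathlib

set_option autoImplicit false

/-!
Irreducible elementary nets of `R`-modules over a proper algebraic extension of the fraction field of
a principal ideal domain `R` need not be closed.
-/

namespace Pool.Agent.Results.MP_9bf48e_al.NonClosedNet

open Matrix Polynomial

/-- `σ` is an elementary net (carpet) of order `n` over `K` all of whose members are `R`-submodules
of `K`: `σ i r * σ r j ⊆ σ i j` whenever `i, r, j` are pairwise distinct. (The diagonal members
`σ i i` play no role.) -/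
def IsElementaryNet {R K : Type*} [CommRing R] [Field K] [Algebra R K] {n : ℕ}
    (σ : Fin n → Fin n → Submodule R K) : Prop :=
  ∀ i r j : Fin n, i ≠ r → r ≠ j → i ≠ j → ∀ x ∈ σ i r, ∀ y ∈ σ r j, x * y ∈ σ i j

/-- The net is irreducible: all its (off-diagonal) members are nonzero. -/
def IsIrred {R K : Type*} [CommRing R] [Field K] [Algebra R K] {n : ℕ}
    (σ : Fin n → Fin n → Submodule R K) : Prop :=
  ∀ i j : Fin n, i ≠ j → σ i j ≠ ⊥

/-- The elementary net subgroup `E(σ)` of `GL(n, K)`: it is generated by the elementary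
transvections `1 + a e_ij`, `i ≠ j`, `a ∈ σ i j`. -/
def netSubgroup {R K : Type*} [CommRing R] [Field K] [Algebra R K] {n : ℕ}
    (σ : Fin n → Fin n → Submodule R K) : Subgroup (GL (Fin n) K) :=
  Subgroup.closure {g | ∃ i j : Fin n, i ≠ j ∧ ∃ a ∈ σ i j,
    (g : Matrix (Fin n) (Fin n) K) = Matrix.transvection i j a}

/-- The net is closed: `E(σ)` contains no elementary transvections beyond the generating ones. -/
def IsClosedNet {R K : Type*} [CommRing R] [Field K] [Algebra R K] {n : ℕ}
    (σ : Fin n → Fin n → Submodule R K) : Prop :=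
  ∀ i j : Fin n, i ≠ j → ∀ a : K, ∀ g ∈ netSubgroup σ,
    (g : Matrix (Fin n) (Fin n) K) = Matrix.transvection i j a → a ∈ σ i j

section aux

variable {R K : Type*} [CommRing R] [Field K] [Algebra R K]

/-- multiples of a submodule -/
def mulSub (m : R) (O : Submodule R K) : Submodule R K := O.map (LinearMap.lsmul R K m)

theorem mem_mulSub {m : R} {O : Submodule R K} {x : K} :
    x ∈ mulSub m O ↔ ∃ o ∈ O, m • o = x := by
  simp [mulSub]

/-- the net -/
noncomputable def sg (m : R) (O : Subalgebra R K) {n : ℕ} (i j : Fin (n + 2)) : Submodule R K :=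
  if i = 0 ∧ j = 1 then Submodule.span R {1} ⊔ mulSub (m ^ 2) (Subalgebra.toSubmodule O)
  else if i = 1 ∧ j = 0 then Subalgebra.toSubmodule O
  else mulSub m (Subalgebra.toSubmodule O)

theorem mulSub_le (m : R) (O : Subalgebra R K) :
    mulSub m (Subalgebra.toSubmodule O) ≤ Subalgebra.toSubmodule O := by
  intro x hx
  obtain ⟨o, ho, rfl⟩ := mem_mulSub.1 hx
  exact (Subalgebra.toSubmodule O).smul_mem _ ho

theorem sg_le (m : R) (O : Subalgebra R K) {n : ℕ} (i j : Fin (n + 2)) :
    sg m O i j ≤ Subalgebra.toSubmodule O := by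
  unfold sg
  split_ifs
  · refine sup_le ?_ (mulSub_le _ _)
    rw [Submodule.span_singleton_le_iff_mem]
    exact O.one_mem
  · exact le_rfl
  · exact mulSub_le _ _

theorem sg_other (m : R) (O : Subalgebra R K) {n : ℕ} {i j : Fin (n + 2)}
    (h1 : ¬ (i = 0 ∧ j = 1)) (h2 : ¬ (i = 1 ∧ j = 0)) :
    sg m O i j = mulSub m (Subalgebra.toSubmodule O) := by
  rw [sg, if_neg h1, if_neg h2]

theorem mul_mem_left {m : R} {O : Subalgebra R K} {x y : K}
    (hx : x ∈ mulSub m (Subalgebra.toSubmodule O)) (hy : y ∈ O) :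
    x * y ∈ mulSub m (Subalgebra.toSubmodule O) := by
  obtain ⟨o, ho, rfl⟩ := mem_mulSub.1 hx
  exact mem_mulSub.2 ⟨o * y, O.mul_mem ho hy, by rw [smul_mul_assoc]⟩

theorem mul_mem_right {m : R} {O : Subalgebra R K} {x y : K}
    (hx : x ∈ O) (hy : y ∈ mulSub m (Subalgebra.toSubmodule O)) :
    x * y ∈ mulSub m (Subalgebra.toSubmodule O) := by
  rw [mul_comm]
  exact mul_mem_left hy hx

theorem mul_mem_both {m : R} {O : Subalgebra R K} {x y : K}
    (hx : x ∈ mulSub m (Subalgebra.toSubmodule O))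
    (hy : y ∈ mulSub m (Subalgebra.toSubmodule O)) :
    x * y ∈ mulSub (m ^ 2) (Subalgebra.toSubmodule O) := by
  obtain ⟨o, ho, rfl⟩ := mem_mulSub.1 hx
  obtain ⟨o', ho', rfl⟩ := mem_mulSub.1 hy
  refine mem_mulSub.2 ⟨o * o', O.mul_mem ho ho', ?_⟩
  rw [smul_mul_smul_comm, sq]

theorem sg_net (m : R) (O : Subalgebra R K) (n : ℕ) :
    IsElementaryNet (sg m O : Fin (n + 2) → Fin (n + 2) → Submodule R K) := by
  intro i r j hir hrj hij x hx y hy
  have hxO : x ∈ O := sg_le m O i r hx
  have hyO : y ∈ O := sg_le m O r j hy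
  by_cases h1 : i = 0 ∧ j = 1
  · obtain ⟨rfl, rfl⟩ := h1
    rw [sg_other m O (by simp [hrj]) (by simp [hij])] at hx
    rw [sg_other m O (by simp [hir.symm]) (by simp [hij.symm])] at hy
    rw [sg, if_pos ⟨rfl, rfl⟩]
    exact Submodule.mem_sup_right (mul_mem_both hx hy)
  by_cases h2 : i = 1 ∧ j = 0
  · rw [sg, if_neg h1, if_pos h2]
    exact O.mul_mem hxO hyO
  rw [sg_other m O h1 h2]
  by_cases h3 : (i = 0 ∧ r = 1) ∨ (i = 1 ∧ r = 0)
  · have h4 : ¬ (r = 0 ∧ j = 1) := by
      rintro ⟨rfl, rfl⟩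
      rcases h3 with ⟨h, -⟩ | ⟨h, -⟩
      · exact hir h
      · exact hij h
    have h5 : ¬ (r = 1 ∧ j = 0) := by
      rintro ⟨rfl, rfl⟩
      rcases h3 with ⟨h, -⟩ | ⟨h, -⟩
      · exact hij h
      · exact hir h
    rw [sg_other m O h4 h5] at hy
    exact mul_mem_right hxO hy
  · push Not at h3
    rw [sg_other m O (fun h => h3.1 h.1 h.2) (fun h => h3.2 h.1 h.2)] at hx
    exact mul_mem_left hx hyO

end aux

section domain

variable {R K : Type*} [CommRing R] [Field K] [Algebra R K]

theorem sg_irred [FaithfulSMul R K] {m : R} (hm : m ≠ 0) (O : Subalgebra R K) (n : ℕ) :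
    IsIrred (sg m O : Fin (n + 2) → Fin (n + 2) → Submodule R K) := by
  intro i j _
  rw [Submodule.ne_bot_iff]
  by_cases h1 : i = 0 ∧ j = 1
  · refine ⟨1, ?_, one_ne_zero⟩
    rw [sg, if_pos h1]
    exact Submodule.mem_sup_left (Submodule.mem_span_singleton_self _)
  by_cases h2 : i = 1 ∧ j = 0
  · refine ⟨1, ?_, one_ne_zero⟩
    rw [sg, if_neg h1, if_pos h2]
    exact O.one_mem
  · refine ⟨algebraMap R K m, ?_, ?_⟩
    · rw [sg_other m O h1 h2]
      exact mem_mulSub.2 ⟨1, O.one_mem, by rw [Algebra.algebraMap_eq_smul_one]⟩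
    · rwa [Ne, FaithfulSMul.algebraMap_eq_zero_iff]

/-- `θ` does not lie in `R + m² R[θ]` -/
theorem not_mem [IsDomain R] [IsIntegrallyClosed R] [FaithfulSMul R K] {θ : K} (hθ : IsIntegral R θ)
    (hd : 2 ≤ (minpoly R θ).natDegree) {m : R} (hm : ¬ IsUnit m) :
    θ ∉ Submodule.span R {(1 : K)} ⊔
      mulSub (m ^ 2) (Subalgebra.toSubmodule (Algebra.adjoin R {θ})) := by
  intro h
  obtain ⟨u, hu, v, hv, huv⟩ := Submodule.mem_sup.1 h
  obtain ⟨r, rfl⟩ := Submodule.mem_span_singleton.1 hu
  obtain ⟨o, ho, rfl⟩ := mem_mulSub.1 hv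
  rw [Subalgebra.mem_toSubmodule, Algebra.adjoin_singleton_eq_range_aeval] at ho
  obtain ⟨p, rfl⟩ := ho
  have haev : aeval θ (X - C r - C (m ^ 2) * p) = 0 := by
    rw [map_sub, map_sub, map_mul, aeval_X, aeval_C, aeval_C, sub_sub, sub_eq_zero,
      ← Algebra.smul_def]
    rw [Algebra.algebraMap_eq_smul_one]
    exact huv.symm
  obtain ⟨s, hs⟩ := minpoly.isIntegrallyClosed_dvd hθ haev
  -- reduce modulo `m`
  set I : Ideal R := Ideal.span {m} with hI
  have hne : I ≠ ⊤ := by
    rwa [hI, Ne, Ideal.span_singleton_eq_top]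
  have : Nontrivial (R ⧸ I) := Ideal.Quotient.nontrivial_iff.2 hne
  let f : R →+* R ⧸ I := Ideal.Quotient.mk I
  have hfm : f m = 0 := Ideal.Quotient.eq_zero_iff_mem.2 (Ideal.mem_span_singleton_self m)
  have h2 : (X - C (f r) : (R ⧸ I)[X]) = (minpoly R θ).map f * s.map f := by
    have := congrArg (Polynomial.map f) hs
    rw [Polynomial.map_mul] at this
    rw [← this]
    simp [hfm]
  have hmon : ((minpoly R θ).map f).Monic := (minpoly.monic hθ).map f
  have hs0 : s.map f ≠ 0 := by
    intro h0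
    rw [h0, mul_zero] at h2
    exact (monic_X_sub_C (f r)).ne_zero h2
  have h3 := congrArg Polynomial.natDegree h2
  rw [natDegree_X_sub_C, hmon.natDegree_mul' hs0,
    (minpoly.monic hθ).natDegree_map f] at h3
  omega

end domain

section group

variable {R K : Type*} [CommRing R] [Field K] [Algebra R K]

/-- the transvection as an element of the general linear group -/
def tg {n : ℕ} (i j : Fin n) (h : i ≠ j) (a : K) : GL (Fin n) K where
  val := transvection i j a
  inv := transvection i j (-a)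
  val_inv := by rw [transvection_mul_transvection_same i j h, add_neg_cancel, transvection_zero]
  inv_val := by rw [transvection_mul_transvection_same i j h, neg_add_cancel, transvection_zero]

theorem tg_mem {n : ℕ} {σ : Fin n → Fin n → Submodule R K} {i j : Fin n} (h : i ≠ j) {a : K}
    (ha : a ∈ σ i j) : tg i j h a ∈ netSubgroup σ :=
  Subgroup.subset_closure ⟨i, j, h, a, ha, rfl⟩

theorem word {S : Type*} [Ring S] [Algebra K S] {A B : S} (hA : A * A = 0) (hB : B * B = 0)
    (hABA : A * B * A = A) (hBAB : B * A * B = B) (c : K) :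
    (1 + A) * (1 - B) * (1 + A) * (1 + c • B) * (1 - A) * (1 + B) * (1 - A) = 1 - c • A := by
  have h1 : (1 + A) * (1 - B) * (1 + A) = 1 + A - B - A * B - B * A := by
    have : (1 + A) * (1 - B) * (1 + A) = 1 + A - B - A * B - B * A + (A - A * B * A) + A * A := by
      noncomm_ring
    rw [this, hABA, hA]; simp
  have h2 : (1 - A) * (1 + B) * (1 - A) = 1 - A + B - A * B - B * A := by
    have : (1 - A) * (1 + B) * (1 - A) = 1 - A + B - A * B - B * A - (A - A * B * A) + A * A := by
      noncomm_ring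
    rw [this, hABA, hA]; simp
  have h3 : (1 + A - B - A * B - B * A) * B = A * B := by
    have : (1 + A - B - A * B - B * A) * B
        = A * B + (B - B * A * B) - B * B - A * (B * B) := by noncomm_ring
    rw [this, hBAB, hB]; simp
  have h4 : A * B * (1 - A + B - A * B - B * A) = -A := by
    have : A * B * (1 - A + B - A * B - B * A)
        = A * B - A * B * A + A * (B * B) - A * B * A * B - A * (B * B) * A := by noncomm_ring
    rw [this, hABA, hB]; simp
  have e1 : (1 + A) * (1 - A) = 1 := by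
    have : (1 + A) * (1 - A) = 1 - A * A := by noncomm_ring
    rw [this, hA, sub_zero]
  have e2 : (1 - B) * (1 + B) = 1 := by
    have : (1 - B) * (1 + B) = 1 - B * B := by noncomm_ring
    rw [this, hB, sub_zero]
  have h5 : (1 + A - B - A * B - B * A) * (1 - A + B - A * B - B * A) = 1 := by
    rw [← h1, ← h2]
    calc (1 + A) * (1 - B) * (1 + A) * ((1 - A) * (1 + B) * (1 - A))
        = (1 + A) * ((1 - B) * ((1 + A) * (1 - A)) * (1 + B)) * (1 - A) := by
          simp only [mul_assoc]
      _ = 1 := by rw [e1, mul_one, e2, mul_one, e1]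
  have h6 : (1 + A) * (1 - B) * (1 + A) * (1 + c • B) * (1 - A) * (1 + B) * (1 - A) =
      ((1 + A) * (1 - B) * (1 + A)) * (1 + c • B) * ((1 - A) * (1 + B) * (1 - A)) := by
    simp only [mul_assoc]
  rw [h6, h1, h2, mul_add, mul_one, mul_smul_comm, h3, add_mul, h5, smul_mul_assoc, h4, smul_neg,
    sub_eq_add_neg]

theorem not_closed {n : ℕ} {m : R} {O : Subalgebra R K} {θ : K} (hθ : θ ∈ O)
    (hn : θ ∉ Submodule.span R {(1 : K)} ⊔ mulSub (m ^ 2) (Subalgebra.toSubmodule O)) :
    ¬ IsClosedNet (sg m O : Fin (n + 2) → Fin (n + 2) → Submodule R K) := by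
  intro hc
  have h01 : (0 : Fin (n + 2)) ≠ 1 := by simp
  have m01 : ∀ a : K, a ∈ Submodule.span R {(1 : K)} → tg (0 : Fin (n + 2)) 1 h01 a ∈
      netSubgroup (sg m O : Fin (n + 2) → Fin (n + 2) → Submodule R K) := by
    intro a ha
    apply tg_mem
    rw [sg, if_pos ⟨rfl, rfl⟩]
    exact Submodule.mem_sup_left ha
  have m10 : ∀ a : K, a ∈ O → tg (1 : Fin (n + 2)) 0 h01.symm a ∈
      netSubgroup (sg m O : Fin (n + 2) → Fin (n + 2) → Submodule R K) := by
    intro a ha
    apply tg_mem
    rw [sg, if_neg (by simp), if_pos ⟨rfl, rfl⟩]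
    exact ha
  have hone : (1 : K) ∈ Submodule.span R {(1 : K)} := Submodule.mem_span_singleton_self _
  set w : GL (Fin (n + 2)) K := tg 0 1 h01 1 * tg 1 0 h01.symm (-1) * tg 0 1 h01 1 *
    tg 1 0 h01.symm θ * tg 0 1 h01 (-1) * tg 1 0 h01.symm 1 * tg 0 1 h01 (-1) with hw
  have hwm : w ∈ netSubgroup (sg m O : Fin (n + 2) → Fin (n + 2) → Submodule R K) := by
    rw [hw]
    refine mul_mem (mul_mem (mul_mem (mul_mem (mul_mem (mul_mem ?_ ?_) ?_) ?_) ?_) ?_) ?_
    · exact m01 _ hone
    · exact m10 _ (neg_mem O.one_mem)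
    · exact m01 _ hone
    · exact m10 _ hθ
    · exact m01 _ (neg_mem hone)
    · exact m10 _ O.one_mem
    · exact m01 _ (neg_mem hone)
  have hval : (w : Matrix (Fin (n + 2)) (Fin (n + 2)) K) = transvection 0 1 (-θ) := by
    have key := word (K := K) (A := (single 0 1 1 : Matrix (Fin (n + 2)) (Fin (n + 2)) K))
      (B := single 1 0 1) (by simp) (by simp) (by simp) (by simp) θ
    have v : (w : Matrix (Fin (n + 2)) (Fin (n + 2)) K) =
        (1 + single 0 1 1) * (1 - single 1 0 1) * (1 + single 0 1 1) *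
        (1 + θ • single 1 0 1) * (1 - single 0 1 1) * (1 + single 1 0 1) *
        (1 - single 0 1 1) := by
      rw [hw]
      simp only [Units.val_mul, tg, transvection, sub_eq_add_neg, ← single_neg, smul_single,
        smul_eq_mul, mul_one]
    rw [v, key, transvection, smul_single, smul_eq_mul, mul_one, sub_eq_add_neg, ← single_neg]
  have := hc 0 1 h01 (-θ) w hwm hval
  rw [sg, if_pos ⟨rfl, rfl⟩, neg_mem_iff] at this
  exact hn this

end group

/-- Let `R` be a principal ideal domain which is not a field, `k` its field of fractions and `K` an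
algebraic extension of `k` with `K ≠ k`. Then for every `n ≥ 2` there is an irreducible elementary
net of order `n` over `K`, consisting of `R`-submodules of `K`, which is not closed. -/
theorem result (R k K : Type*) [CommRing R] [IsDomain R] [IsPrincipalIdealRing R]
    [Field k] [Algebra R k] [IsFractionRing R k] [Field K] [Algebra k K] [Algebra R K]
    [IsScalarTower R k K] [Algebra.IsAlgebraic k K] (hR : ¬ IsField R)
    (hK : ∃ x : K, x ∉ Set.range (algebraMap k K)) (n : ℕ) (hn : 2 ≤ n) :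
    ∃ σ : Fin n → Fin n → Submodule R K,
      IsElementaryNet σ ∧ IsIrred σ ∧ ¬ IsClosedNet σ := by
  obtain ⟨n, rfl⟩ := Nat.exists_eq_add_of_le' hn
  have hinj : Function.Injective (algebraMap R K) := by
    rw [IsScalarTower.algebraMap_eq R k K]
    exact (algebraMap k K).injective.comp (IsFractionRing.injective R k)
  have : FaithfulSMul R K := (faithfulSMul_iff_algebraMap_injective R K).2 hinj
  obtain ⟨x, hx⟩ := hK
  have hxa : IsAlgebraic R x := by
    rw [IsFractionRing.isAlgebraic_iff R k K]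
    exact Algebra.IsAlgebraic.isAlgebraic x
  obtain ⟨r, hr0, hint⟩ := hxa.exists_integral_multiple
  set θ : K := r • x with hθ
  have hθk : θ ∉ Set.range (algebraMap k K) := by
    rintro ⟨y, hy⟩
    apply hx
    have hr : algebraMap R k r ≠ 0 := by
      intro h0
      exact hr0 ((IsFractionRing.injective R k) (by rw [h0, map_zero]))
    refine ⟨(algebraMap R k r)⁻¹ * y, ?_⟩
    rw [map_mul, hy, hθ, map_inv₀, ← IsScalarTower.algebraMap_apply, Algebra.smul_def]
    rw [IsScalarTower.algebraMap_apply R k K]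
    exact inv_mul_cancel_left₀ ((map_ne_zero (algebraMap k K)).2 hr) x
  have hd : 2 ≤ (minpoly R θ).natDegree := by
    have h0 : 0 < (minpoly R θ).natDegree := minpoly.natDegree_pos hint
    have h1 : (minpoly R θ).natDegree ≠ 1 := by
      intro h1
      apply hθk
      have h2 := minpoly.aeval R θ
      rw [(minpoly.monic hint).eq_X_add_C h1] at h2
      simp only [map_add, aeval_X, aeval_C] at h2
      refine ⟨- algebraMap R k ((minpoly R θ).coeff 0), ?_⟩
      rw [map_neg, ← IsScalarTower.algebraMap_apply]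
      exact (eq_neg_of_add_eq_zero_left h2).symm
    omega
  obtain ⟨m, hm0, hmu⟩ := Ring.exists_not_isUnit_of_not_isField hR
  exact ⟨sg m (Algebra.adjoin R {θ}), sg_net m _ n, sg_irred hm0 _ n,
    not_closed (Algebra.self_mem_adjoin_singleton R θ) (not_mem hint hd hmu)⟩

end Pool.Agent.Results.MP_9bf48e_al.NonClosedNet
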